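import Pool.Agent.H18.XZ.TC
import Pool.Agent.H12.XX.RH

/-!
# PFS: a pair of protocols does not see the blocks of large scale (scale n / 100)
-/

set_option autoImplicit false

namespace Pool.Agent.H79.XZ

open Finset Pool.Agent.H6.NB Pool.Agent.H70.OQ Pool.Agent.H70.EH Pool.Agent.H70.EI Pool.Agent.H78.XQ
open Pool.Agent.H66.IP (Local ins sp dm IsZ scl mBp m0p)
open Pool.Agent.H66.IQ Pool.Agent.H66.AV
open Pool.Agent.H17.XW (Una)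
open Pool.Agent.H18.XX Pool.Agent.H12.XX

/-- PFS -/
theorem pf_PFS (hPTR : Pool.Agent.H66.IQ.T_PTR) (hTPR : T_TPR) (hIZU : Pool.Agent.H66.IP.T_IZU)
    (hSPF : Pool.Agent.H66.IP.T_SPF) (hRBF : T_RBF) (hCLO : T_CLO) : Pool.Agent.H18.XZ.T_PFS := by
  intro V k
  refine ⟨100 * (k + 20), fun n hn G₁ G₂ hG₁ hG₂ => ?_⟩
  intro E O hO g g₁ g₂ p hsc
  obtain ⟨hI, -⟩ := hIZU (dm (lx V)) E O hO
  set r := scl (lx V) p.1 with hr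
  have hq : k + 20 ≤ n / 100 := by omega
  have h1 : n / 4 + 1 ≤ 2 * (r ^ 2 - r) := by
    have h3 : r ^ 2 - r = r * (r - 1) := by
      rw [Nat.mul_sub, mul_one, pow_two]
    have h4 : (n / 100 + 1) * (n / 100) ≤ r * (r - 1) := Nat.mul_le_mul (by omega) (by omega)
    have h5 : n / 4 + 1 ≤ 2 * ((n / 100 + 1) * (n / 100)) := by
      have h6 : n / 4 + 1 ≤ 25 * (n / 100) + 26 := by omega
      have h7 : 20 ≤ n / 100 := by omega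
      nlinarith
    rw [h3]
    omega
  have hm : 2 ^ (n / 4) + 2 ^ (n / 4) ≤ bd r := by
    calc 2 ^ (n / 4) + 2 ^ (n / 4) = 2 ^ (n / 4 + 1) := by ring
      _ ≤ _ := Nat.pow_le_pow_right (by norm_num) h1
  have h1m : 1 ≤ 2 ^ (n / 4) := Nat.one_le_two_pow
  have hS2 : 2 ≤ 2 ^ bd r := by
    calc 2 = 2 ^ 1 := (pow_one 2).symm
      _ ≤ 2 ^ bd r := Nat.pow_le_pow_right (by norm_num) (by omega)
  have hSm : 2 ^ (2 ^ (n / 4) + 1) ≤ 2 ^ bd r :=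
    Nat.pow_le_pow_right (by norm_num) (by omega)
  have hkr : k + 5 + 2 ≤ r + 2 := by omega
  refine rh_of hIZU hSPF hRBF hCLO V E O hO g p _ ?_ ?_
  · intro P c u
    obtain ⟨-, hI2, -⟩ := hI P g₁ p.1 p.2
    obtain ⟨-, hJ2, -⟩ := hI P g₂ p.1 p.2
    obtain ⟨t₁, h1, h2, h3⟩ := hPTR _ k (2 ^ (n / 4)) (2 ^ bd r) G₁ _ hS2 hSm
      (hI2 c u) hG₁
    obtain ⟨t₂, j1, j2, j3⟩ := hPTR _ k (2 ^ (n / 4)) (2 ^ bd r) G₂ _ hS2 hSm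
      (hJ2 c u) hG₂
    obtain ⟨t, l1, l2, l3⟩ := hTPR _ t₁ t₂
    refine ⟨t, l1.trans ((Nat.add_le_add h1 j1).trans hm),
      Cb_mono (le_trans (by norm_num) hS2) hkr (l2 _ _ hS2 h2 j2), fun y => ?_⟩
    rw [l3 y, h3 y, j3 y]
  · intro P c
    obtain ⟨-, -, hI3⟩ := hI P g₁ p.1 p.2
    obtain ⟨-, -, hJ3⟩ := hI P g₂ p.1 p.2
    obtain ⟨t₁, h1, h2, h3⟩ := hPTR _ k (2 ^ (n / 4)) (2 ^ bd r) G₁ _ hS2 hSm
      (hI3 c) hG₁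
    obtain ⟨t₂, j1, j2, j3⟩ := hPTR _ k (2 ^ (n / 4)) (2 ^ bd r) G₂ _ hS2 hSm
      (hJ3 c) hG₂
    obtain ⟨t, l1, l2, l3⟩ := hTPR _ t₁ t₂
    refine ⟨t, l1.trans ((Nat.add_le_add h1 j1).trans hm),
      Cb_mono (le_trans (by norm_num) hS2) hkr (l2 _ _ hS2 h2 j2), fun y => ?_⟩
    rw [l3 y, h3 y, j3 y]

end Pool.Agent.H79.XZ
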