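import Pool.Agent.H18.XZ.TE
import Pool.Agent.H10.AVH.SUM

/-!
# Row PRC of exz_modules: protocols with few coins are rarely right too often
-/

set_option autoImplicit false

namespace Pool.Agent.H79.XZ

open Finset Pool.Agent.H70.OQ
open Pool.Agent.H66.IP (Local ins sp dm IsZ scl mBp m0p)
open Pool.Agent.H66.IQ
open Pool.Agent.H66.AV
open Pool.Agent.H18.XX (Exa lx ax GoodZ Cz wz wy RhZ)
open Pool.Agent.H18.XZ
open Pool.Agent.H10.AVH (sum_upd)

theorem prb_ic_nn (p : Prop) : 0 ≤ ic p := by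
  classical
  unfold ic
  split_ifs <;> norm_num

theorem prb_num (n : ℕ) (hn : 2000 ≤ n) :
    2 * (2 ^ 2 ^ (n / 25) * (1 / 2 : ℝ) ^ 2 ^ (n / 20)) + (1 / 2 : ℝ) ^ 2 ^ (n / 25 + 2) ≤
      (1 / 2) ^ 2 ^ (n / 28) := by
  set y : ℝ := (1 / 2) ^ 2 ^ (n / 25) with hy
  have hy0 : 0 < y := by positivity
  have hy1 : y ≤ 1 / 2 := by
    calc y ≤ (1 / 2 : ℝ) ^ 1 :=
          pow_le_pow_of_le_one (by norm_num) (by norm_num) Nat.one_le_two_pow
      _ = 1 / 2 := pow_one _
  have e1 : (1 / 2 : ℝ) ^ 2 ^ (n / 25 + 2) = y ^ 4 := by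
    rw [hy, ← pow_mul, pow_add]
    norm_num
  have e2 : (1 / 2 : ℝ) ^ 2 ^ (n / 20) ≤ y ^ 4 := by
    rw [← e1]
    exact pow_le_pow_of_le_one (by norm_num) (by norm_num)
      (Nat.pow_le_pow_right (by norm_num) (by omega))
  have e3 : (2 : ℝ) ^ 2 ^ (n / 25) * y = 1 := by
    rw [hy, ← mul_pow]
    norm_num
  have e4 : y ≤ (1 / 2) ^ 2 ^ (n / 28) :=
    pow_le_pow_of_le_one (by norm_num) (by norm_num)
      (Nat.pow_le_pow_right (by norm_num) (by omega))
  have e5 : (2 : ℝ) ^ 2 ^ (n / 25) * (1 / 2 : ℝ) ^ 2 ^ (n / 20) ≤ y ^ 3 := by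
    calc (2 : ℝ) ^ 2 ^ (n / 25) * (1 / 2 : ℝ) ^ 2 ^ (n / 20)
        ≤ (2 : ℝ) ^ 2 ^ (n / 25) * y ^ 4 := mul_le_mul_of_nonneg_left e2 (by positivity)
      _ = ((2 : ℝ) ^ 2 ^ (n / 25) * y) * y ^ 3 := by ring
      _ = y ^ 3 := by rw [e3, one_mul]
  rw [e1]
  have h1 : y ^ 3 ≤ y * (1 / 4) := by nlinarith [mul_nonneg hy0.le hy0.le]
  have h2 : y ^ 4 ≤ y * (1 / 4) := by
    have : y ^ 4 = y ^ 3 * y := by ring
    nlinarith [mul_nonneg hy0.le hy0.le, pow_pos hy0 3]
  linarith

theorem pf_PRC (hRHC : T_RHC) (hHYM : T_HYM) (hWYD : T_WYD) (hCNB : T_CNB)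
    (hALG : Pool.Agent.H66.AV.T_ALG) (hOVL : Pool.Agent.H66.AV.T_OVL)
    (hGZA : Pool.Agent.H66.AV.T_GZA) : T_PRC := by
  classical
  intro V k
  obtain ⟨n₂, h2⟩ := hRHC V k
  obtain ⟨n₃, h3⟩ := hCNB k
  refine ⟨n₂ + n₃ + 2000, fun n hn G hGW hGM M hk hn' E O hO => ?_⟩
  have hnum := prb_num n (by omega)
  set s : ℕ := n / 25 with hs
  have hs20 : 20 ≤ s := by omega
  set A : (Fin n → Bool) → Prot k := fun x => G (List.ofFn x) with hA
  obtain ⟨D, hD0, hD1, hD2⟩ := hWYD V E O s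
  set κ : ℝ := (1 / 2) ^ 2 ^ (n / 20) with hκ
  have hκ0 : 0 ≤ κ := by positivity
  -- the tables of the level `k` and the length `n`, the others are fixed
  have hmain : ∀ g : List Bool → Bool,
      ∑ c : Wn n k, ∑ P, wz V E O (ovl n k g (tbl c)) P *
        ic (Bdr A (fun x => (c x).1) (O P (ovl n k g (tbl c)))) ≤
      Fintype.card (Wn n k) * (1 / 2) ^ 2 ^ (n / 28) := by
    intro g
    have h4 : ∀ c : Wn n k, ∑ P, wz V E O (ovl n k g (tbl c)) P *
        ic (Bdr A (fun x => (c x).1) (O P (ovl n k g (tbl c)))) ≤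
        2 * ∑ P, D P * ic (Bdr A (fun x => (c x).1) (O P (ovl n k g (tbl c)))) +
          (1 / 2) ^ 2 ^ (s + 2) := by
      intro c
      refine (hHYM V E O hO (ovl n k g (tbl c)) s
        (fun P => Bdr A (fun x => (c x).1) (O P (ovl n k g (tbl c)))) hs20
        (fun p hp => h2 n (by omega) A hGW hGM E O hO _ _ _ p hp)).trans ?_
      have h5 : ∑ P, wy V E O s (ovl n k g (tbl c)) P *
          ic (Bdr A (fun x => (c x).1) (O P (ovl n k g (tbl c)))) ≤
          ∑ P, D P * ic (Bdr A (fun x => (c x).1) (O P (ovl n k g (tbl c)))) :=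
        Finset.sum_le_sum fun P _ => mul_le_mul_of_nonneg_right (hD2 _ P) (prb_ic_nn _)
      linarith
    have h6 : ∀ P, ∑ c : Wn n k,
        ic (Bdr A (fun x => (c x).1) (O P (ovl n k g (tbl c)))) ≤
        Fintype.card (Wn n k) * κ := by
      intro P
      obtain ⟨hLit, hast⟩ := (hOVL n k g).2.2.2 (lx V) E O hO P
      exact h3 n (by omega) A hGW (fun T => O P (ovl n k g T)) hLit
        (fun z x => hALG.1 n k z x _ fun q => hast (tbl z) x q)
    calc ∑ c : Wn n k, ∑ P, wz V E O (ovl n k g (tbl c)) P *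
        ic (Bdr A (fun x => (c x).1) (O P (ovl n k g (tbl c))))
        ≤ ∑ c : Wn n k, (2 * ∑ P, D P *
            ic (Bdr A (fun x => (c x).1) (O P (ovl n k g (tbl c)))) +
          (1 / 2) ^ 2 ^ (s + 2)) := Finset.sum_le_sum fun c _ => h4 c
      _ = 2 * ∑ P, D P * ∑ c : Wn n k,
            ic (Bdr A (fun x => (c x).1) (O P (ovl n k g (tbl c)))) +
          Fintype.card (Wn n k) * (1 / 2) ^ 2 ^ (s + 2) := by
          rw [Finset.sum_add_distrib, Finset.sum_const, Finset.card_univ, nsmul_eq_mul,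
            ← Finset.mul_sum, Finset.sum_comm]
          congr 2
          refine Finset.sum_congr rfl fun P _ => ?_
          rw [Finset.mul_sum]
      _ ≤ 2 * ∑ P, D P * (Fintype.card (Wn n k) * κ) +
          Fintype.card (Wn n k) * (1 / 2) ^ 2 ^ (s + 2) := by
          refine add_le_add (mul_le_mul_of_nonneg_left ?_ (by norm_num)) le_rfl
          exact Finset.sum_le_sum fun P _ => mul_le_mul_of_nonneg_left (h6 P) (hD0 P)
      _ = 2 * ((∑ P, D P) * (Fintype.card (Wn n k) * κ)) +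
          Fintype.card (Wn n k) * (1 / 2) ^ 2 ^ (s + 2) := by rw [← Finset.sum_mul]
      _ ≤ 2 * (2 ^ 2 ^ s * (Fintype.card (Wn n k) * κ)) +
          Fintype.card (Wn n k) * (1 / 2) ^ 2 ^ (s + 2) := by
          refine add_le_add (mul_le_mul_of_nonneg_left ?_ (by norm_num)) le_rfl
          exact mul_le_mul_of_nonneg_right hD1 (by positivity)
      _ = Fintype.card (Wn n k) * (2 * (2 ^ 2 ^ s * κ) + (1 / 2) ^ 2 ^ (s + 2)) := by ring
      _ ≤ _ := mul_le_mul_of_nonneg_left hnum (Nat.cast_nonneg _)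
  -- all tables
  set t : Fin M × Fin M := (⟨k, hk⟩, ⟨n, hn'⟩) with ht
  let F : Za M → ℝ := fun z => ∑ P, wz V E O (gza M z) P *
      ic ((1 / 2 + (1 / 2 : ℝ) ^ (n / 64)) * 2 ^ n < (rights G (O P (gza M z)) n : ℝ))
  show ∑ z : Za M, F z ≤ Fintype.card (Za M) * (1 / 2) ^ 2 ^ (n / 28)
  by_cases hne : Nonempty (Za M)
  · obtain ⟨z₀⟩ := hne
    have hW : (0 : ℝ) < Fintype.card (Wn n k) := by
      have : Nonempty (Wn n k) := ⟨z₀ t⟩
      exact_mod_cast Fintype.card_pos
    have h5 : ∀ z : Za M, ∑ c : Wn n k, F (Function.update z t c) ≤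
        Fintype.card (Wn n k) * (1 / 2) ^ 2 ^ (n / 28) := by
      intro z
      have h6 : ∀ c : Wn n k, F (Function.update z t c) =
          ∑ P, wz V E O (ovl n k (gza M z) (tbl c)) P *
            ic (Bdr A (fun x => (c x).1) (O P (ovl n k (gza M z) (tbl c)))) := by
        intro c
        have h7 : gza M (Function.update z t c) = ovl n k (gza M z) (tbl c) := hGZA M z t c
        show ∑ P, wz V E O (gza M (Function.update z t c)) P *
          ic ((1 / 2 + (1 / 2 : ℝ) ^ (n / 64)) * 2 ^ n <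
            (rights G (O P (gza M (Function.update z t c))) n : ℝ)) = _
        rw [h7]
        refine Finset.sum_congr rfl fun P _ => ?_
        obtain ⟨-, hast⟩ := (hOVL n k (gza M z)).2.2.2 (lx V) E O hO P
        have h8 : rights G (O P (ovl n k (gza M z) (tbl c))) n =
            (univ.filter fun x : Fin n → Bool =>
              (A x).Proves (O P (ovl n k (gza M z) (tbl c))) ((c x).1 = false)).card := by
          unfold rights
          congr 1
          refine Finset.filter_congr fun x _ => ?_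
          have h9 : List.ofFn x ∉ alang k (O P (ovl n k (gza M z) (tbl c))) ↔
              (c x).1 = false := by
            rw [hALG.1 n k c x _ fun q => hast (tbl c) x q]
            simp
          show (G (List.ofFn x)).Proves _ _ ↔ (G (List.ofFn x)).Proves _ _
          rw [propext h9]
        rw [h8]
        rfl
      rw [Finset.sum_congr rfl fun c _ => h6 c]
      exact hmain (gza M z)
    have h6 : (Fintype.card (Wn n k) : ℝ) * ∑ z : Za M, F z ≤
        Fintype.card (Wn n k) * (Fintype.card (Za M) * (1 / 2) ^ 2 ^ (n / 28)) := by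
      have h7 := sum_upd (W := fun t : Fin M × Fin M => Wn t.2.1 t.1.1) t F
      calc (Fintype.card (Wn n k) : ℝ) * ∑ z : Za M, F z =
          ∑ z : Za M, ∑ c : Wn n k, F (Function.update z t c) := h7.symm
        _ ≤ ∑ _z : Za M, (Fintype.card (Wn n k) : ℝ) * (1 / 2 : ℝ) ^ 2 ^ (n / 28) :=
            Finset.sum_le_sum fun z _ => h5 z
        _ = _ := by
            rw [Finset.sum_const, Finset.card_univ, nsmul_eq_mul]
            ring
    exact le_of_mul_le_mul_left h6 hW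
  · have : IsEmpty (Za M) := not_nonempty_iff.1 hne
    rw [Fintype.sum_empty, Fintype.card_of_isEmpty]
    simp

end Pool.Agent.H79.XZ
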