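import Pool.Agent.H18.XZ.TE
import Pool.Agent.H12.XX.RH

/-!
# RHC: the blocks of large scale are hidden from the event that the protocols are right too often
-/

set_option autoImplicit false

namespace Pool.Agent.H79.XZ

open Finset Pool.Agent.H6.NB Pool.Agent.H70.OQ Pool.Agent.H70.EH Pool.Agent.H70.EI Pool.Agent.H78.XQ
open Pool.Agent.H66.IP (Local ins sp dm IsZ scl mBp m0p)
open Pool.Agent.H66.IQ Pool.Agent.H66.AV
open Pool.Agent.H17.XW (Una)
open Pool.Agent.H18.XX Pool.Agent.H12.XX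

/-- RHC -/
theorem pf_RHC (hIZU : Pool.Agent.H66.IP.T_IZU) (hSPF : Pool.Agent.H66.IP.T_SPF) (hRBF : T_RBF)
    (hCLP : Pool.Agent.H18.XZ.T_CLP) (hBFC : Pool.Agent.H18.XZ.T_BFC) :
    Pool.Agent.H18.XZ.T_RHC := by
  classical
  intro V k
  obtain ⟨n₀, hn₀⟩ := hBFC k
  refine ⟨n₀, fun n hn G hG1 hG2 E O hO g g₁ b p hsc => ?_⟩
  obtain ⟨-, h20, hSz, -, -, -⟩ := hSPF (lx V)
  obtain ⟨hI, -⟩ := hIZU (dm (lx V)) E O hO
  intro κ P
  obtain ⟨-, hI2, hI3⟩ := hI P g p.1 p.2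
  obtain ⟨-, hJ2, hJ3⟩ := hI P g₁ p.1 p.2
  have hS1 : 1 ≤ 2 ^ bd (scl (lx V) p.1) := Nat.one_le_two_pow
  let Bf : Cz V p.1 → Bool := fun c =>
    decide ((∀ i : {a // a ∈ E}, scl (lx V) i.1 ≤ scl (lx V) p.1 →
      ax V (O (Function.update P p c) g) i.1 = κ i) ∧
      Pool.Agent.H18.XZ.Bdr G b (O (Function.update P p c) g₁))
  have h3 := hRBF (scl (lx V) p.1) _ _ _ _ (hSz p.1) (κ p) Bf
    (fun _ => 1) (fun P' u h' => by
      have := hCLP _ V E (scl (lx V) p.1) _ κ _ (hI2 (P', h') u) (h20 p.1).1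
        (hn₀ n hn (scl (lx V) p.1) hsc G hG1 hG2 _ _ (hJ2 (P', h') u) b)
      exact this) (fun P' => by
      have := hCLP _ V E (scl (lx V) p.1) _ κ _ (hI3 (P', fun _ => false)) (h20 p.1).1
        (hn₀ n hn (scl (lx V) p.1) hsc G hG1 hG2 _ _ (hJ3 (P', fun _ => false)) b)
      exact this)
    (fun P' u h' => ⟨.lf ⟨fun _ => true, fun _ => ∅, fun _ _ _ => ⟨rfl, rfl⟩⟩, Nat.zero_le _,
      Cl_mono hS1 (Nat.zero_le _) (Or.inl ⟨true, fun _ => rfl⟩), fun y => rfl⟩)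
    (fun P' => ⟨.lf ⟨fun _ => true, fun _ => ∅, fun _ _ _ => ⟨rfl, rfl⟩⟩, Nat.zero_le _,
      Cl_mono hS1 (Nat.zero_le _) (Or.inl ⟨true, fun _ => rfl⟩), fun y => rfl⟩)
  have key : ∀ c : Cz V p.1, (ic (Pool.Agent.H18.XZ.Bdr G b (O (Function.update P p c) g₁)) : ℝ) *
      ic (∀ i : {a // a ∈ E}, scl (lx V) i.1 ≤ scl (lx V) p.1 →
        ax V (O (Function.update P p c) g) i.1 = κ i) = bi (Bf c) := by
    intro c
    by_cases ha : (∀ i : {a // a ∈ E}, scl (lx V) i.1 ≤ scl (lx V) p.1 →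
      ax V (O (Function.update P p c) g) i.1 = κ i) <;>
    by_cases hc : Pool.Agent.H18.XZ.Bdr G b (O (Function.update P p c) g₁)
    · have : Bf c = true := decide_eq_true ⟨ha, hc⟩
      rw [this]; unfold ic bi; rw [if_pos ha, if_pos hc]; simp
    · have : Bf c = false := decide_eq_false fun h => hc h.2
      rw [this]; unfold ic bi; rw [if_neg hc]; simp
    · have : Bf c = false := decide_eq_false fun h => ha h.1
      rw [this]; unfold ic bi; rw [if_neg ha]; simp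
    · have : Bf c = false := decide_eq_false fun h => ha h.1
      rw [this]; unfold ic bi; rw [if_neg ha]; simp
  simp only [one_mul] at h3
  simp only [key]
  exact h3

end Pool.Agent.H79.XZ
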